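import Mathlib

namespace Pool.Agent.Results.MP_52e642_an.WeakShanks

open MvPolynomial Finset

/-- The square of the norm of a polynomial `∑ a_{jk} z₁^j z₂^k` in the Hardy space of the
bidisk, `∑ |a_{jk}|^2`. -/
noncomputable def normSqH2 (p : MvPolynomial (Fin 2) ℂ) : ℝ := ∑ m ∈ p.support, ‖p.coeff m‖ ^ 2

/-- The position (starting from `0`) of the monomial `z₁^j z₂^k` in the degree-lexicographic
ordering `1, z₁, z₂, z₁^2, z₁ z₂, z₂^2, z₁^3, …`. -/
def position (j k : ℕ) : ℕ := (j + k) * (j + k + 1) / 2 + k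

/-- The span `𝒫_n` of the first `n + 1` monomials. -/
def PP (n : ℕ) : Set (MvPolynomial (Fin 2) ℂ) :=
  {p | ∀ m, p.coeff m ≠ 0 → position (m 0) (m 1) ≤ n}

/-- `q` is an `n`-th optimal polynomial approximant of `1/f` in the Hardy space of the bidisk. -/
def IsOPA (f : MvPolynomial (Fin 2) ℂ) (n : ℕ) (q : MvPolynomial (Fin 2) ℂ) : Prop :=
  q ∈ PP n ∧ ∀ p ∈ PP n, normSqH2 (q * f - 1) ≤ normSqH2 (p * f - 1)

/-- the exponent `(j, k)` -/
noncomputable def ex (j k : ℕ) : Fin 2 →₀ ℕ := Finsupp.single 0 j + Finsupp.single 1 k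

theorem ex_zero (j k : ℕ) : ex j k 0 = j := by simp [ex]
theorem ex_one (j k : ℕ) : ex j k 1 = k := by simp [ex]

theorem ex_eq (m : Fin 2 →₀ ℕ) : ex (m 0) (m 1) = m := by
  ext i
  fin_cases i
  · exact ex_zero _ _
  · exact ex_one _ _

/-- the polynomial with given coefficients -/
noncomputable def pl (g : ℕ → ℕ → ℂ) : MvPolynomial (Fin 2) ℂ :=
  ∑ j ∈ range 5, ∑ k ∈ range 5, monomial (ex j k) (g j k)

theorem coeff_pl (g : ℕ → ℕ → ℂ) (m : Fin 2 →₀ ℕ) :
    coeff m (pl g) = if m 0 ∈ range 5 ∧ m 1 ∈ range 5 then g (m 0) (m 1) else 0 := by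
  classical
  unfold pl
  rw [coeff_sum]
  have h1 : ∀ j, coeff m (∑ k ∈ range 5, monomial (ex j k) (g j k)) =
      if m 1 ∈ range 5 then (if j = m 0 then g j (m 1) else 0) else 0 := by
    intro j
    rw [coeff_sum]
    have h2 : ∀ k, coeff m (monomial (ex j k) (g j k)) =
        if k = m 1 then (if j = m 0 then g j (m 1) else 0) else 0 := by
      intro k
      rw [coeff_monomial]
      by_cases hk : k = m 1
      · by_cases hj : j = m 0
        · rw [if_pos hk, if_pos hj, if_pos (by rw [hk, hj, ex_eq]), hk]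
        · rw [if_pos hk, if_neg hj, if_neg]
          intro h
          exact hj (by rw [← h, ex_zero])
      · rw [if_neg hk, if_neg]
        intro h
        exact hk (by rw [← h, ex_one])
    simp_rw [h2]
    rw [Finset.sum_ite_eq']
  simp_rw [h1]
  by_cases h1m : m 1 ∈ range 5
  · simp only [h1m, if_true, and_true]
    rw [Finset.sum_ite_eq']
  · simp [h1m]

theorem normSq_pl (g : ℕ → ℕ → ℂ) :
    normSqH2 (pl g) = ∑ j ∈ range 5, ∑ k ∈ range 5, ‖g j k‖ ^ 2 := by
  classical
  unfold normSqH2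
  have hsub : (pl g).support ⊆ (range 5 ×ˢ range 5).image (fun x => ex x.1 x.2) := by
    intro m hm
    rw [mem_support_iff, coeff_pl] at hm
    by_cases h : m 0 ∈ range 5 ∧ m 1 ∈ range 5
    · rw [Finset.mem_image]
      exact ⟨(m 0, m 1), Finset.mem_product.2 h, ex_eq m⟩
    · rw [if_neg h] at hm
      exact absurd rfl hm
  rw [Finset.sum_subset hsub]
  · rw [Finset.sum_image]
    · rw [Finset.sum_product]
      refine Finset.sum_congr rfl fun j hj => Finset.sum_congr rfl fun k hk => ?_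
      rw [coeff_pl]
      simp only [ex_zero, ex_one]
      rw [if_pos ⟨hj, hk⟩]
    · rintro ⟨j, k⟩ _ ⟨j', k'⟩ _ h
      simp only at h
      have h0 := congrArg (fun m : Fin 2 →₀ ℕ => m 0) h
      have h1 := congrArg (fun m : Fin 2 →₀ ℕ => m 1) h
      simp only [ex_zero, ex_one] at h0 h1
      rw [h0, h1]
  · intro m _ hm
    rw [notMem_support_iff] at hm
    rw [hm]; simp

/-- the counterexample -/
noncomputable def ff : MvPolynomial (Fin 2) ℂ :=
  (C 3 + C 2 * X 0) * (C 3 + C 2 * X 1) * (C 2 + X 0 * X 1) ^ 2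

/-- the coefficients of `(a + b z₁ + c z₂) f - t` -/
def gg (a b c t : ℂ) : ℕ → ℕ → ℂ
  | 0, 0 => 36 * a - t
  | 1, 0 => 24 * a + 36 * b
  | 0, 1 => 24 * a + 36 * c
  | 1, 1 => 52 * a + 24 * b + 24 * c
  | 2, 0 => 24 * b
  | 0, 2 => 24 * c
  | 2, 1 => 24 * a + 52 * b
  | 1, 2 => 24 * a + 52 * c
  | 2, 2 => 25 * a + 24 * b + 24 * c
  | 3, 1 => 24 * b
  | 1, 3 => 24 * c
  | 3, 2 => 6 * a + 25 * b
  | 2, 3 => 6 * a + 25 * c
  | 3, 3 => 4 * a + 6 * b + 6 * c
  | 4, 2 => 6 * b
  | 2, 4 => 6 * c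
  | 4, 3 => 4 * b
  | 3, 4 => 4 * c
  | _, _ => 0

theorem mono_eq (j k : ℕ) (x : ℂ) :
    (monomial (ex j k) x : MvPolynomial (Fin 2) ℂ) = C x * X 0 ^ j * X 1 ^ k := by
  rw [ex, ← mul_one x, ← one_mul (1 : ℂ)]
  rw [← mul_assoc, mul_one, ← monomial_mul, ← C_mul_X_pow_eq_monomial, ← C_mul_X_pow_eq_monomial]
  simp

theorem expand (a b c : ℂ) :
    (C a + C b * X 0 + C c * X 1) * ff - 1 = pl (gg a b c 1) := by
  unfold pl ff
  simp only [Finset.sum_range_succ, Finset.sum_range_zero, mono_eq, gg]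
  simp only [map_add, map_mul, map_sub, map_zero, map_one, map_ofNat]
  ring

theorem norm_expand (a b c t : ℂ) : normSqH2 (pl (gg a b c t)) =
    7017 * (a.re ^ 2 + a.im ^ 2 + b.re ^ 2 + b.im ^ 2 + c.re ^ 2 + c.im ^ 2) +
    8268 * (a.re * b.re + a.im * b.im) + 8268 * (a.re * c.re + a.im * c.im) +
    2376 * (b.re * c.re + b.im * c.im) - 72 * (a.re * t.re + a.im * t.im) +
    (t.re ^ 2 + t.im ^ 2) := by
  rw [normSq_pl]
  simp only [Finset.sum_range_succ, Finset.sum_range_zero, gg]
  simp only [← Complex.normSq_eq_norm_sq, Complex.normSq_apply]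
  simp
  ring

theorem form_nonneg (u v w : ℂ) :
    0 ≤ 7017 * (u.re ^ 2 + u.im ^ 2 + v.re ^ 2 + v.im ^ 2 + w.re ^ 2 + w.im ^ 2) +
    8268 * (u.re * v.re + u.im * v.im) + 8268 * (u.re * w.re + u.im * w.im) +
    2376 * (v.re * w.re + v.im * w.im) - 576 * (v.re ^ 2 + v.im ^ 2 + w.re ^ 2 + w.im ^ 2)
    - (u.re ^ 2 + u.im ^ 2) := by
  nlinarith [sq_nonneg (u.re + v.re), sq_nonneg (u.im + v.im), sq_nonneg (u.re + w.re),
    sq_nonneg (u.im + w.im), sq_nonneg (v.re - w.re), sq_nonneg (v.im - w.im),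
    sq_nonneg (u.re), sq_nonneg (u.im), sq_nonneg (v.re + w.re + u.re),
    sq_nonneg (v.im + w.im + u.im)]

theorem mem_PP2 (a b c : ℂ) : (C a + C b * X 0 + C c * X 1 : MvPolynomial (Fin 2) ℂ) ∈ PP 2 := by
  intro m hm
  have h1 : (C a + C b * X 0 + C c * X 1 : MvPolynomial (Fin 2) ℂ) =
      monomial (ex 0 0) a + monomial (ex 1 0) b + monomial (ex 0 1) c := by
    rw [mono_eq, mono_eq, mono_eq]; ring
  rw [h1, coeff_add, coeff_add, coeff_monomial, coeff_monomial, coeff_monomial] at hm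
  by_cases e0 : ex 0 0 = m
  · rw [← e0, ex_zero, ex_one]; simp [position]
  · by_cases e1 : ex 1 0 = m
    · rw [← e1, ex_zero, ex_one]; simp [position]
    · by_cases e2 : ex 0 1 = m
      · rw [← e2, ex_zero, ex_one]; simp [position]
      · rw [if_neg e0, if_neg e1, if_neg e2] at hm
        simp at hm

theorem of_mem_PP2 (p : MvPolynomial (Fin 2) ℂ) (hp : p ∈ PP 2) :
    ∃ a b c : ℂ, p = C a + C b * X 0 + C c * X 1 := by
  refine ⟨p.coeff (ex 0 0), p.coeff (ex 1 0), p.coeff (ex 0 1), ?_⟩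
  have h1 : (C (p.coeff (ex 0 0)) + C (p.coeff (ex 1 0)) * X 0 + C (p.coeff (ex 0 1)) * X 1 :
      MvPolynomial (Fin 2) ℂ) =
      monomial (ex 0 0) (p.coeff (ex 0 0)) + monomial (ex 1 0) (p.coeff (ex 1 0)) +
        monomial (ex 0 1) (p.coeff (ex 0 1)) := by
    rw [mono_eq, mono_eq, mono_eq]; ring
  rw [h1]
  ext m
  rw [coeff_add, coeff_add, coeff_monomial, coeff_monomial, coeff_monomial]
  have n1 : ex 0 0 ≠ ex 1 0 := fun h => by
    have := congrArg (fun m : Fin 2 →₀ ℕ => m 0) h; simp [ex_zero] at this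
  have n2 : ex 0 0 ≠ ex 0 1 := fun h => by
    have := congrArg (fun m : Fin 2 →₀ ℕ => m 1) h; simp [ex_one] at this
  have n3 : ex 1 0 ≠ ex 0 1 := fun h => by
    have := congrArg (fun m : Fin 2 →₀ ℕ => m 0) h; simp [ex_zero] at this
  by_cases e0 : ex 0 0 = m
  · subst e0
    rw [if_pos rfl, if_neg n1.symm, if_neg n2.symm]; ring
  · by_cases e1 : ex 1 0 = m
    · subst e1
      rw [if_neg e0, if_pos rfl, if_neg n3.symm]; ring
    · by_cases e2 : ex 0 1 = m
      · subst e2
        rw [if_neg e0, if_neg e1, if_pos rfl]; ring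
      · rw [if_neg e0, if_neg e1, if_neg e2]
        simp only [add_zero]
        by_contra hne
        have h2 := hp m hne
        have h3 : m 0 + m 1 ≤ 1 := by
          by_contra hcon
          have h4 : 2 ≤ m 0 + m 1 := by omega
          have h5 : 6 ≤ (m 0 + m 1) * (m 0 + m 1 + 1) := by nlinarith
          unfold position at h2
          omega
        have h4 : (m 0 = 0 ∧ m 1 = 0) ∨ (m 0 = 1 ∧ m 1 = 0) ∨ (m 0 = 0 ∧ m 1 = 1) := by omega
        rcases h4 with ⟨h, h'⟩ | ⟨h, h'⟩ | ⟨h, h'⟩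
        · exact e0 (by rw [← ex_eq m, h, h'])
        · exact e1 (by rw [← ex_eq m, h, h'])
        · exact e2 (by rw [← ex_eq m, h, h'])

/-- the value of the square norm -/
theorem norm_val (a b c : ℂ) :
    normSqH2 ((C a + C b * X 0 + C c * X 1) * ff - 1) =
    7017 * (a.re ^ 2 + a.im ^ 2 + b.re ^ 2 + b.im ^ 2 + c.re ^ 2 + c.im ^ 2) +
    8268 * (a.re * b.re + a.im * b.im) + 8268 * (a.re * c.re + a.im * c.im) +
    2376 * (b.re * c.re + b.im * c.im) - 72 * a.re + 1 := by
  rw [expand, norm_expand]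
  simp

/-- **Counterexample.** There is a polynomial `f` without zeros on the closed bidisk for which the
second optimal polynomial approximant `q` of `1/f` in the Hardy space of the bidisk (with respect
to the degree-lexicographic ordering) exists, is unique, and vanishes at a point of the open
bidisk. -/
theorem result : ∃ f : MvPolynomial (Fin 2) ℂ,
    (∀ z : Fin 2 → ℂ, (∀ i, ‖z i‖ ≤ 1) → eval z f ≠ 0) ∧
    ∃ (n : ℕ) (q : MvPolynomial (Fin 2) ℂ), IsOPA f n q ∧ (∀ q', IsOPA f n q' → q' = q) ∧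
      ∃ z : Fin 2 → ℂ, (∀ i, ‖z i‖ < 1) ∧ eval z q = 0 := by
  refine ⟨ff, ?_, 2, C (32820 / 2599397) + C (-16536 / 2599397) * X 0 +
    C (-16536 / 2599397) * X 1, ?_, ?_, ?_⟩
  · intro z hz h
    have h0 := hz 0
    have h1 := hz 1
    unfold ff at h
    simp only [map_mul, map_add, map_pow, eval_C, eval_X] at h
    rcases mul_eq_zero.1 h with h | h
    · rcases mul_eq_zero.1 h with h | h
      · have e : (3 : ℂ) = -(2 * z 0) := by linear_combination h
        have := congrArg norm e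
        rw [norm_neg, norm_mul] at this
        simp at this
        linarith
      · have e : (3 : ℂ) = -(2 * z 1) := by linear_combination h
        have := congrArg norm e
        rw [norm_neg, norm_mul] at this
        simp at this
        linarith
    · have h2 : (2 : ℂ) + z 0 * z 1 = 0 := by
        rcases pow_eq_zero_iff (n := 2) (by norm_num) |>.1 h with h3
        exact h3
      have e : (2 : ℂ) = -(z 0 * z 1) := by linear_combination h2
      have := congrArg norm e
      rw [norm_neg, norm_mul] at this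
      simp at this
      nlinarith [norm_nonneg (z 0), norm_nonneg (z 1)]
  · refine ⟨mem_PP2 _ _ _, fun p hp => ?_⟩
    obtain ⟨a, b, c, rfl⟩ := of_mem_PP2 p hp
    rw [norm_val, norm_val]
    have key := form_nonneg (a - 32820 / 2599397) (b - -16536 / 2599397) (c - -16536 / 2599397)
    simp only [Complex.sub_re, Complex.sub_im, Complex.neg_re, Complex.neg_im,
      Complex.div_ofNat_re, Complex.div_ofNat_im, Complex.re_ofNat, Complex.im_ofNat] at key ⊢
    linarith [sq_nonneg (b.re - -16536 / 2599397), sq_nonneg b.im,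
      sq_nonneg (c.re - -16536 / 2599397), sq_nonneg c.im, sq_nonneg (a.re - 32820 / 2599397),
      sq_nonneg a.im]
  · rintro q' ⟨hq', hmin⟩
    obtain ⟨a, b, c, rfl⟩ := of_mem_PP2 q' hq'
    have h1 := hmin _ (mem_PP2 (32820 / 2599397) (-16536 / 2599397) (-16536 / 2599397))
    rw [norm_val, norm_val] at h1
    have key := form_nonneg (a - 32820 / 2599397) (b - -16536 / 2599397) (c - -16536 / 2599397)
    simp only [Complex.sub_re, Complex.sub_im, Complex.neg_re, Complex.neg_im,
      Complex.div_ofNat_re, Complex.div_ofNat_im, Complex.re_ofNat, Complex.im_ofNat] at key h1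
    have hsum : 576 * ((b.re - -16536 / 2599397) ^ 2 + b.im ^ 2 + (c.re - -16536 / 2599397) ^ 2 +
        c.im ^ 2) + ((a.re - 32820 / 2599397) ^ 2 + a.im ^ 2) ≤ 0 := by
      linarith
    have p1 := sq_nonneg (b.re - -16536 / 2599397)
    have p2 := sq_nonneg b.im
    have p3 := sq_nonneg (c.re - -16536 / 2599397)
    have p4 := sq_nonneg c.im
    have p5 := sq_nonneg (a.re - 32820 / 2599397)
    have p6 := sq_nonneg a.im
    have z1 : b.re - -16536 / 2599397 = 0 := pow_eq_zero_iff (n := 2) (by norm_num) |>.1 (by linarith)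
    have z2 : b.im = 0 := pow_eq_zero_iff (n := 2) (by norm_num) |>.1 (by linarith)
    have z3 : c.re - -16536 / 2599397 = 0 := pow_eq_zero_iff (n := 2) (by norm_num) |>.1 (by linarith)
    have z4 : c.im = 0 := pow_eq_zero_iff (n := 2) (by norm_num) |>.1 (by linarith)
    have z5 : a.re - 32820 / 2599397 = 0 := pow_eq_zero_iff (n := 2) (by norm_num) |>.1 (by linarith)
    have z6 : a.im = 0 := pow_eq_zero_iff (n := 2) (by norm_num) |>.1 (by linarith)
    have ha : a = 32820 / 2599397 := by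
      apply Complex.ext
      · simp only [Complex.div_ofNat_re, Complex.re_ofNat]; linarith
      · simp only [Complex.div_ofNat_im, Complex.im_ofNat]; linarith
    have hb : b = -16536 / 2599397 := by
      apply Complex.ext
      · simp only [Complex.div_ofNat_re, Complex.neg_re, Complex.re_ofNat]; linarith
      · simp only [Complex.div_ofNat_im, Complex.neg_im, Complex.im_ofNat]; linarith
    have hc : c = -16536 / 2599397 := by
      apply Complex.ext
      · simp only [Complex.div_ofNat_re, Complex.neg_re, Complex.re_ofNat]; linarith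
      · simp only [Complex.div_ofNat_im, Complex.neg_im, Complex.im_ofNat]; linarith
    rw [ha, hb, hc]
  · refine ⟨fun _ => 2735 / 2756, fun _ => ?_, ?_⟩
    · have : (2735 / 2756 : ℂ) = ((2735 / 2756 : ℝ) : ℂ) := by push_cast; rfl
      rw [this, Complex.norm_real, Real.norm_eq_abs, abs_of_pos (by norm_num)]
      norm_num
    · simp only [map_add, map_mul, eval_C, eval_X]
      norm_num

end Pool.Agent.Results.MP_52e642_an.WeakShanks
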